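import Mathlib

set_option autoImplicit false

namespace Pool.Agent.H782_Illum

open Module

/-- The linear map sending coefficients on six points to their weighted sum and total weight. -/
noncomputable def depMap {E : Type*} [AddCommGroup E] [Module ℝ E] (x a : Fin 3 → E) :
    ((Fin 3 → ℝ) × (Fin 3 → ℝ)) →ₗ[ℝ] E × ℝ where
  toFun d := (∑ i, d.1 i • x i + ∑ j, d.2 j • a j, ∑ i, d.1 i + ∑ j, d.2 j)
  map_add' d e := by
    ext
    · simp only [Prod.fst_add, Prod.snd_add, Pi.add_apply, add_smul, Finset.sum_add_distrib]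
      abel
    · simp only [Prod.fst_add, Prod.snd_add, Pi.add_apply, Finset.sum_add_distrib]
      ring
  map_smul' r d := by
    ext
    · simp only [Prod.smul_fst, Prod.smul_snd, Pi.smul_apply, smul_eq_mul, mul_smul,
        RingHom.id_apply, smul_add, Finset.smul_sum]
    · simp only [Prod.smul_fst, Prod.smul_snd, Pi.smul_apply, smul_eq_mul,
        RingHom.id_apply, mul_add, Finset.mul_sum]

theorem one_lt_rank_ker {E : Type*} [AddCommGroup E] [Module ℝ E] [FiniteDimensional ℝ E]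
    (hE : finrank ℝ E ≤ 3) (x a : Fin 3 → E) :
    1 < Module.rank ℝ (LinearMap.ker (depMap x a)) := by
  have h1 := LinearMap.finrank_range_add_finrank_ker (depMap x a)
  have h2 : finrank ℝ ((Fin 3 → ℝ) × (Fin 3 → ℝ)) = 6 := by
    simp [Module.finrank_prod]
  have h3 : finrank ℝ (LinearMap.range (depMap x a)) ≤ finrank ℝ (E × ℝ) :=
    Submodule.finrank_le _
  have h4 : finrank ℝ (E × ℝ) = finrank ℝ E + 1 := by
    simp [Module.finrank_prod]
  have h5 : 2 ≤ finrank ℝ (LinearMap.ker (depMap x a)) := by omega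
  rw [← Module.finrank_eq_rank]
  exact_mod_cast h5

theorem pos_claim {E : Type*} [AddCommGroup E] [Module ℝ E]
    (x a : Fin 3 → E) (f : Fin 3 → Fin 3 → E →ₗ[ℝ] ℝ) (c : Fin 3 → Fin 3 → ℝ)
    (hx : ∀ i j, f i j (x i) = c i j) (ha : ∀ i j, f i j (a j) = c i j)
    (hx' : ∀ i j i', i' ≠ i → f i j (x i') < c i j)
    (ha' : ∀ i j j', j' ≠ j → f i j (a j') < c i j)
    (d : (Fin 3 → ℝ) × (Fin 3 → ℝ)) (hd : depMap x a d = 0)
    (i j : Fin 3) (hi : ∀ i', i' ≠ i → d.1 i' ≤ 0) (hj : ∀ j', j' ≠ j → d.2 j' ≤ 0) :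
    d = 0 := by
  have hd1 : ∑ i, d.1 i • x i + ∑ j, d.2 j • a j = 0 := congrArg Prod.fst hd
  have hd2 : ∑ i, d.1 i + ∑ j, d.2 j = 0 := congrArg Prod.snd hd
  -- evaluate the functional
  have key : ∑ k, d.1 k * (f i j (x k) - c i j) + ∑ k, d.2 k * (f i j (a k) - c i j) = 0 := by
    have h := congrArg (f i j) hd1
    simp only [map_add, map_sum, map_smul, smul_eq_mul, map_zero] at h
    simp only [mul_sub, Finset.sum_sub_distrib, ← Finset.sum_mul]
    have : (∑ k, d.1 k + ∑ k, d.2 k) * c i j = 0 := by rw [hd2, zero_mul]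
    linarith [this]
  have hn1 : ∀ k ∈ Finset.univ, 0 ≤ d.1 k * (f i j (x k) - c i j) := by
    intro k _
    by_cases hk : k = i
    · subst hk; simp [hx]
    · exact mul_nonneg_of_nonpos_of_nonpos (hi k hk) (by linarith [hx' i j k hk])
  have hn2 : ∀ k ∈ Finset.univ, 0 ≤ d.2 k * (f i j (a k) - c i j) := by
    intro k _
    by_cases hk : k = j
    · subst hk; simp [ha]
    · exact mul_nonneg_of_nonpos_of_nonpos (hj k hk) (by linarith [ha' i j k hk])
  have s1 := Finset.sum_nonneg hn1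
  have s2 := Finset.sum_nonneg hn2
  have z1 : ∑ k, d.1 k * (f i j (x k) - c i j) = 0 := by linarith
  have z2 : ∑ k, d.2 k * (f i j (a k) - c i j) = 0 := by linarith
  have e1 : ∀ k, k ≠ i → d.1 k = 0 := by
    intro k hk
    have := (Finset.sum_eq_zero_iff_of_nonneg hn1).1 z1 k (Finset.mem_univ k)
    rcases mul_eq_zero.1 this with h | h
    · exact h
    · exact absurd h (by linarith [hx' i j k hk])
  have e2 : ∀ k, k ≠ j → d.2 k = 0 := by
    intro k hk
    have := (Finset.sum_eq_zero_iff_of_nonneg hn2).1 z2 k (Finset.mem_univ k)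
    rcases mul_eq_zero.1 this with h | h
    · exact h
    · exact absurd h (by linarith [ha' i j k hk])
  have t1 : ∑ k, d.1 k = d.1 i := by
    rw [Finset.sum_eq_single i]
    · intro k _ hk; exact e1 k hk
    · simp
  have t2 : ∑ k, d.2 k = d.2 j := by
    rw [Finset.sum_eq_single j]
    · intro k _ hk; exact e2 k hk
    · simp
  have u1 : ∑ k, d.1 k • x k = d.1 i • x i := by
    rw [Finset.sum_eq_single i]
    · intro k _ hk; rw [e1 k hk, zero_smul]
    · simp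
  have u2 : ∑ k, d.2 k • a k = d.2 j • a j := by
    rw [Finset.sum_eq_single j]
    · intro k _ hk; rw [e2 k hk, zero_smul]
    · simp
  rw [t1, t2] at hd2
  rw [u1, u2] at hd1
  have hj2 : d.2 j = - d.1 i := by linarith
  have hdi : d.1 i = 0 := by
    by_contra hne
    rw [hj2, neg_smul, ← sub_eq_add_neg, ← smul_sub] at hd1
    have hxa : x i = a j := by
      rcases smul_eq_zero.1 hd1 with h | h
      · exact absurd h hne
      · exact sub_eq_zero.1 h
    obtain ⟨j', hj'⟩ : ∃ j' : Fin 3, j' ≠ j := exists_ne j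
    have h1 := hx i j'
    have h2 := ha' i j' j hj'.symm
    rw [hxa] at h1
    linarith
  have hdj : d.2 j = 0 := by rw [hj2, hdi, neg_zero]
  ext k
  · by_cases hk : k = i
    · subst hk; simpa using hdi
    · simpa using e1 k hk
  · by_cases hk : k = j
    · subst hk; simpa using hdj
    · simpa using e2 k hk

/-- at most one positive coordinate -/
theorem exists_of_not_two (u : Fin 3 → ℝ) (h : ¬ ∃ i i', i ≠ i' ∧ 0 < u i ∧ 0 < u i') :
    ∃ i, ∀ i', i' ≠ i → u i' ≤ 0 := by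
  by_cases h0 : ∃ i, 0 < u i
  · obtain ⟨i, hi⟩ := h0
    refine ⟨i, fun i' hi' => ?_⟩
    by_contra hc
    exact h ⟨i, i', hi'.symm, hi, not_le.1 hc⟩
  · push Not at h0
    exact ⟨0, fun i' _ => h0 i'⟩

theorem not_two_neg (u : Fin 3 → ℝ) (h : ∃ i i', i ≠ i' ∧ 0 < u i ∧ 0 < u i') :
    ¬ ∃ i i', i ≠ i' ∧ 0 < (-u) i ∧ 0 < (-u) i' := by
  rintro ⟨p, q, hpq, hp, hq⟩
  obtain ⟨i, i', hii, hi, hi'⟩ := h
  simp only [Pi.neg_apply] at hp hq
  have h1 : p ≠ i := by rintro rfl; linarith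
  have h2 : p ≠ i' := by rintro rfl; linarith
  have h3 : q ≠ i := by rintro rfl; linarith
  have h4 : q ≠ i' := by rintro rfl; linarith
  omega

/-- Six points in a real space of dimension at most three cannot have all nine segments between
the two triples exposed as edges. -/
theorem k33 {E : Type*} [AddCommGroup E] [Module ℝ E] [FiniteDimensional ℝ E]
    (hE : finrank ℝ E ≤ 3)
    (x a : Fin 3 → E) (f : Fin 3 → Fin 3 → E →ₗ[ℝ] ℝ) (c : Fin 3 → Fin 3 → ℝ)
    (hx : ∀ i j, f i j (x i) = c i j) (ha : ∀ i j, f i j (a j) = c i j)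
    (hx' : ∀ i j i', i' ≠ i → f i j (x i') < c i j)
    (ha' : ∀ i j j', j' ≠ j → f i j (a j') < c i j) : False := by
  have hrank := one_lt_rank_ker hE x a
  set D := LinearMap.ker (depMap x a) with hD
  have hconn : IsConnected ({(0 : D)}ᶜ : Set D) :=
    isConnected_compl_singleton_of_one_lt_rank hrank 0
  let UX : Set D := {d | ∃ i i', i ≠ i' ∧ 0 < (d : (Fin 3 → ℝ) × (Fin 3 → ℝ)).1 i ∧
    0 < (d : (Fin 3 → ℝ) × (Fin 3 → ℝ)).1 i'}
  let UA : Set D := {d | ∃ i i', i ≠ i' ∧ 0 < (d : (Fin 3 → ℝ) × (Fin 3 → ℝ)).2 i ∧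
    0 < (d : (Fin 3 → ℝ) × (Fin 3 → ℝ)).2 i'}
  have hUX : IsOpen UX := by
    have : UX = ⋃ i, ⋃ i', {d : D | i ≠ i' ∧ 0 < (d : (Fin 3 → ℝ) × (Fin 3 → ℝ)).1 i ∧
        0 < (d : (Fin 3 → ℝ) × (Fin 3 → ℝ)).1 i'} := by
      ext d; simp [UX]
    rw [this]
    refine isOpen_iUnion fun i => isOpen_iUnion fun i' => ?_
    by_cases hii : i = i'
    · have : {d : D | i ≠ i' ∧ 0 < (d : (Fin 3 → ℝ) × (Fin 3 → ℝ)).1 i ∧
        0 < (d : (Fin 3 → ℝ) × (Fin 3 → ℝ)).1 i'} = ∅ := by ext d; simp [hii]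
      rw [this]; exact isOpen_empty
    · have hi : Continuous fun d : D => (d : (Fin 3 → ℝ) × (Fin 3 → ℝ)).1 i := by fun_prop
      have hi' : Continuous fun d : D => (d : (Fin 3 → ℝ) × (Fin 3 → ℝ)).1 i' := by fun_prop
      have : {d : D | i ≠ i' ∧ 0 < (d : (Fin 3 → ℝ) × (Fin 3 → ℝ)).1 i ∧
        0 < (d : (Fin 3 → ℝ) × (Fin 3 → ℝ)).1 i'} =
        {d : D | 0 < (d : (Fin 3 → ℝ) × (Fin 3 → ℝ)).1 i} ∩
        {d : D | 0 < (d : (Fin 3 → ℝ) × (Fin 3 → ℝ)).1 i'} := by ext d; simp [hii]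
      rw [this]
      exact (isOpen_lt continuous_const hi).inter (isOpen_lt continuous_const hi')
  have hUA : IsOpen UA := by
    have : UA = ⋃ i, ⋃ i', {d : D | i ≠ i' ∧ 0 < (d : (Fin 3 → ℝ) × (Fin 3 → ℝ)).2 i ∧
        0 < (d : (Fin 3 → ℝ) × (Fin 3 → ℝ)).2 i'} := by
      ext d; simp [UA]
    rw [this]
    refine isOpen_iUnion fun i => isOpen_iUnion fun i' => ?_
    by_cases hii : i = i'
    · have : {d : D | i ≠ i' ∧ 0 < (d : (Fin 3 → ℝ) × (Fin 3 → ℝ)).2 i ∧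
        0 < (d : (Fin 3 → ℝ) × (Fin 3 → ℝ)).2 i'} = ∅ := by ext d; simp [hii]
      rw [this]; exact isOpen_empty
    · have hi : Continuous fun d : D => (d : (Fin 3 → ℝ) × (Fin 3 → ℝ)).2 i := by fun_prop
      have hi' : Continuous fun d : D => (d : (Fin 3 → ℝ) × (Fin 3 → ℝ)).2 i' := by fun_prop
      have : {d : D | i ≠ i' ∧ 0 < (d : (Fin 3 → ℝ) × (Fin 3 → ℝ)).2 i ∧
        0 < (d : (Fin 3 → ℝ) × (Fin 3 → ℝ)).2 i'} =
        {d : D | 0 < (d : (Fin 3 → ℝ) × (Fin 3 → ℝ)).2 i} ∩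
        {d : D | 0 < (d : (Fin 3 → ℝ) × (Fin 3 → ℝ)).2 i'} := by ext d; simp [hii]
      rw [this]
      exact (isOpen_lt continuous_const hi).inter (isOpen_lt continuous_const hi')
  have hcov : ∀ d : D, d ≠ 0 → d ∈ UX ∨ d ∈ UA := by
    intro d hd
    by_contra hc
    push Not at hc
    obtain ⟨i, hi⟩ := exists_of_not_two _ hc.1
    obtain ⟨j, hj⟩ := exists_of_not_two _ hc.2
    have := pos_claim x a f c hx ha hx' ha' d.1 (LinearMap.mem_ker.1 d.2) i j hi hj
    exact hd (Subtype.ext this)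
  have hdisj : ∀ d : D, d ≠ 0 → d ∈ UX → d ∈ UA → False := by
    intro d hd h1 h2
    have hneg : -d ≠ 0 := neg_ne_zero.2 hd
    rcases hcov (-d) hneg with h | h
    · exact not_two_neg _ h1 h
    · exact not_two_neg _ h2 h
  obtain ⟨d, hd⟩ := hconn.nonempty
  have hd0 : d ≠ 0 := hd
  have hneg : -d ≠ 0 := neg_ne_zero.2 hd0
  have hne : (({(0 : D)}ᶜ : Set D) ∩ UX).Nonempty ∧ (({(0 : D)}ᶜ : Set D) ∩ UA).Nonempty := by
    rcases hcov d hd0 with h | h
    · refine ⟨⟨d, hd, h⟩, ⟨-d, hneg, ?_⟩⟩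
      rcases hcov (-d) hneg with h' | h'
      · exact absurd h' (not_two_neg _ h)
      · exact h'
    · refine ⟨⟨-d, hneg, ?_⟩, ⟨d, hd, h⟩⟩
      rcases hcov (-d) hneg with h' | h'
      · exact h'
      · exact absurd h' (not_two_neg _ h)
  obtain ⟨e, he, he1, he2⟩ := hconn.isPreconnected UX UA hUX hUA
    (fun e he => hcov e he) hne.1 hne.2
  exact hdisj e he he1 he2

end Pool.Agent.H782_Illum
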