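import Mathlib
import Pool.Agent.H782_Illum.K33

set_option autoImplicit false

namespace Pool.Agent.H782_Illum

open Module

/-- A configuration of pairs of points together with supporting planes for the mixed pairs. -/
structure Config (E : Type*) [AddCommGroup E] [Module ℝ E] (ι : Type*) where
  x : ι → E
  a : ι → E
  f : ι → ι → E →ₗ[ℝ] ℝ
  c : ι → ι → ℝ
  hx : ∀ i j, i ≠ j → f i j (x i) = c i j
  ha : ∀ i j, i ≠ j → f i j (a j) = c i j
  lx : ∀ i j, i ≠ j → ∀ k, f i j (x k) ≤ c i j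
  la : ∀ i j, i ≠ j → ∀ k, f i j (a k) ≤ c i j
  nb : ∀ i j, i ≠ j → ∀ k, ¬ (f i j (x k) = c i j ∧ f i j (a k) = c i j)

namespace Config

variable {E : Type*} [AddCommGroup E] [Module ℝ E] {ι : Type*}

/-- Swap the two families. -/
def swap (C : Config E ι) : Config E ι where
  x := C.a
  a := C.x
  f i j := C.f j i
  c i j := C.c j i
  hx i j h := C.ha j i h.symm
  ha i j h := C.hx j i h.symm
  lx i j h k := C.la j i h.symm k
  la i j h k := C.lx j i h.symm k
  nb i j h k := fun hh => C.nb j i h.symm k ⟨hh.2, hh.1⟩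

/-- key sign fact -/
theorem sign_aux (C : Config E ι) {p q r : ι} (hpq : p ≠ q) (hpr : p ≠ r)
    {α β γ : ℝ} (hsum : α + β + γ = 0) (hβ : β ≤ 0) (hγ : γ ≤ 0)
    (hβγ : β ≠ 0 ∨ γ ≠ 0) (h : α • C.x p + β • C.x q + γ • C.x r = 0) : False := by
  have gen : ∀ m, p ≠ m → β * (C.f p m (C.x q) - C.c p m) = 0 ∧
      γ * (C.f p m (C.x r) - C.c p m) = 0 := by
    intro m hm
    have h1 := congrArg (C.f p m) h
    simp only [map_add, map_smul, smul_eq_mul, map_zero, C.hx p m hm] at h1
    have h2 : 0 ≤ β * (C.f p m (C.x q) - C.c p m) :=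
      mul_nonneg_of_nonpos_of_nonpos hβ (by linarith [C.lx p m hm q])
    have h3 : 0 ≤ γ * (C.f p m (C.x r) - C.c p m) :=
      mul_nonneg_of_nonpos_of_nonpos hγ (by linarith [C.lx p m hm r])
    have h4 : β * (C.f p m (C.x q) - C.c p m) + γ * (C.f p m (C.x r) - C.c p m) = 0 := by
      have : (α + β + γ) * C.c p m = 0 := by rw [hsum, zero_mul]
      nlinarith [h1, this]
    constructor <;> linarith
  rcases hβγ with hne | hne
  · have := (gen q hpq).1
    rcases mul_eq_zero.1 this with h0 | h0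
    · exact hne h0
    · exact C.nb p q hpq q ⟨by linarith, C.ha p q hpq⟩
  · have := (gen r hpr).2
    rcases mul_eq_zero.1 this with h0 | h0
    · exact hne h0
    · exact C.nb p r hpr r ⟨by linarith, C.ha p r hpr⟩

/-- No three of the points `x` are collinear. -/
theorem no_collinear (C : Config E ι) {p q r : ι} (hpq : p ≠ q) (hpr : p ≠ r) (hqr : q ≠ r)
    {α β γ : ℝ} (hsum : α + β + γ = 0)
    (h : α • C.x p + β • C.x q + γ • C.x r = 0) : α = 0 ∧ β = 0 ∧ γ = 0 := by
  by_contra hne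
  have hne' : ¬ (β = 0 ∧ γ = 0) := by
    rintro ⟨h1, h2⟩
    exact hne ⟨by linarith, h1, h2⟩
  have hne2 : ¬ (α = 0 ∧ γ = 0) := by
    rintro ⟨h1, h2⟩
    exact hne ⟨h1, by linarith, h2⟩
  have hne3 : ¬ (α = 0 ∧ β = 0) := by
    rintro ⟨h1, h2⟩
    exact hne ⟨h1, h2, by linarith⟩
  have hneg : (-α) • C.x p + (-β) • C.x q + (-γ) • C.x r = 0 := by
    have : (-α) • C.x p + (-β) • C.x q + (-γ) • C.x r
        = -(α • C.x p + β • C.x q + γ • C.x r) := by
      simp only [neg_smul]; abel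
    rw [this, h, neg_zero]
  have perm1 : ∀ a b c : ℝ, a • C.x p + b • C.x q + c • C.x r = 0 →
      b • C.x q + a • C.x p + c • C.x r = 0 := by
    intro a b c h; rw [← h]; abel
  have perm2 : ∀ a b c : ℝ, a • C.x p + b • C.x q + c • C.x r = 0 →
      c • C.x r + a • C.x p + b • C.x q = 0 := by
    intro a b c h; rw [← h]; abel
  have orne : ∀ u v : ℝ, ¬ (u = 0 ∧ v = 0) → u ≠ 0 ∨ v ≠ 0 := by
    intro u v h; by_contra hc; push Not at hc; exact h hc
  have orne' : ∀ u v : ℝ, ¬ (u = 0 ∧ v = 0) → -u ≠ 0 ∨ -v ≠ 0 := by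
    intro u v h; rcases orne u v h with h | h
    · exact Or.inl (neg_ne_zero.2 h)
    · exact Or.inr (neg_ne_zero.2 h)
  rcases le_total 0 α with ha | ha <;> rcases le_total 0 β with hb | hb <;>
    rcases le_total 0 γ with hc | hc
  · -- all ≥ 0: all zero
    exact hne ⟨by linarith, by linarith, by linarith⟩
  · -- α ≥ 0, β ≥ 0, γ ≤ 0 : negate, r is the special
    exact C.sign_aux (p := r) (q := p) (r := q) hpr.symm hqr.symm
      (α := -γ) (β := -α) (γ := -β) (by linarith) (by linarith) (by linarith)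
      (orne' _ _ hne3) (perm2 _ _ _ hneg)
  · -- α ≥ 0, β ≤ 0, γ ≥ 0 : special q negated
    exact C.sign_aux (p := q) (q := p) (r := r) hpq.symm hqr
      (α := -β) (β := -α) (γ := -γ) (by linarith) (by linarith) (by linarith)
      (orne' _ _ hne2) (perm1 _ _ _ hneg)
  · -- α ≥ 0, β ≤ 0, γ ≤ 0
    exact C.sign_aux hpq hpr hsum hb hc (orne _ _ hne') h
  · -- α ≤ 0, β ≥ 0, γ ≥ 0
    exact C.sign_aux hpq hpr (α := -α) (β := -β) (γ := -γ) (by linarith) (by linarith)
      (by linarith) (orne' _ _ hne') hneg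
  · -- α ≤ 0, β ≥ 0, γ ≤ 0
    exact C.sign_aux (p := q) (q := p) (r := r) hpq.symm hqr
      (α := β) (β := α) (γ := γ) (by linarith) ha hc
      (orne _ _ hne2) (perm1 _ _ _ h)
  · -- α ≤ 0, β ≤ 0, γ ≥ 0
    exact C.sign_aux (p := r) (q := p) (r := q) hpr.symm hqr.symm
      (α := γ) (β := α) (γ := β) (by linarith) ha hb
      (orne _ _ hne3) (perm2 _ _ _ h)
  · exact hne ⟨by linarith, by linarith, by linarith⟩

/-- Two planes through three of the points `x` coincide (one inclusion). -/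
theorem share3 [FiniteDimensional ℝ E] (hE : finrank ℝ E = 3) (C : Config E ι)
    {p q r : ι} (hpq : p ≠ q) (hpr : p ≠ r) (hqr : q ≠ r)
    (f g : E →ₗ[ℝ] ℝ) (c d : ℝ) (hf : f ≠ 0)
    (fp : f (C.x p) = c) (fq : f (C.x q) = c) (fr : f (C.x r) = c)
    (gp : g (C.x p) = d) (gq : g (C.x q) = d) (gr : g (C.x r) = d)
    (y : E) (hy : f y = c) : g y = d := by
  by_contra hgy
  apply hf
  have hli : LinearIndependent ℝ ![C.x q - C.x p, C.x r - C.x p, y - C.x p] := by
    rw [Fintype.linearIndependent_iff]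
    intro t ht
    simp only [Fin.sum_univ_three, Matrix.cons_val_zero, Matrix.cons_val_one,
      Matrix.cons_val] at ht
    have h1 := congrArg g ht
    simp only [map_add, map_smul, map_sub, smul_eq_mul, map_zero, gp, gq, gr, sub_self,
      mul_zero, zero_add] at h1
    have ht2 : t 2 = 0 := by
      rcases mul_eq_zero.1 h1 with h | h
      · exact h
      · exact absurd (by linarith) hgy
    rw [ht2, zero_smul, add_zero] at ht
    have h2 := C.no_collinear hpq hpr hqr (α := -(t 0) - t 1) (β := t 0) (γ := t 1)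
      (by ring) (by rw [← ht]; module)
    intro i
    fin_cases i
    · exact h2.2.1
    · exact h2.2.2
    · exact ht2
  have hspan := hli.span_eq_top_of_card_eq_finrank (by simp [hE])
  refine LinearMap.ext_on hspan ?_
  rintro _ ⟨i, rfl⟩
  fin_cases i
  · simp [fp, fq]
  · simp [fp, fr]
  · simp [fp, hy]

end Config

end Pool.Agent.H782_Illum
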