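import Mathlib
import Pool.Agent.H782_Illum.Config

set_option autoImplicit false
set_option linter.unusedVariables false

namespace Pool.Agent.H782_Illum

open Module

theorem count_event {T ι : Type*} [Fintype T] [DecidableEq T] [Fintype ι] [DecidableEq ι]
    (p r q : T) (hqp : q ≠ p) (hqr : q ≠ r) (S : ι → ι → Finset ι) (K : ℕ) (hK : 0 < K)
    (hS : ∀ k l, (S k l).card * K ≤ Fintype.card ι) :
    (Finset.univ.filter fun f : T → ι => f q ∈ S (f p) (f r)).card * K
      ≤ (Fintype.card ι) ^ (Fintype.card T) := by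
  set M := Fintype.card ι with hM
  have h1 : (Finset.univ.filter fun f : T → ι => f q ∈ S (f p) (f r)).card ≤
      (M / K) * (Finset.univ : Finset ({j : T // j ≠ q} → ι)).card := by
    apply Finset.card_le_mul_card_image_of_maps_to
      (f := fun (f : T → ι) (j : {j : T // j ≠ q}) => f j.1)
    · intro a _; exact Finset.mem_univ _
    · intro g _
      have h2 : ((Finset.univ.filter fun f : T → ι => f q ∈ S (f p) (f r)).filter
          fun f => (fun (j : {j : T // j ≠ q}) => f j.1) = g).card
          ≤ (S (g ⟨p, hqp.symm⟩) (g ⟨r, hqr.symm⟩)).card := by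
        apply Finset.card_le_card_of_injOn (fun f => f q)
        · intro f hf
          simp only [Finset.coe_filter, Finset.mem_filter, Finset.mem_univ, true_and,
            Set.mem_ofPred_eq] at hf
          obtain ⟨hf1, hf2⟩ := hf
          have e1 : g ⟨p, hqp.symm⟩ = f p := by rw [← hf2]
          have e2 : g ⟨r, hqr.symm⟩ = f r := by rw [← hf2]
          simpa [e1, e2] using hf1
        · intro f hf f' hf' hff
          simp only [Finset.coe_filter, Finset.mem_filter, Finset.mem_univ, true_and,
            Set.mem_ofPred_eq] at hf hf'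
          funext j
          by_cases hj : j = q
          · subst hj; exact hff
          · have h3 := congrFun hf.2 ⟨j, hj⟩
            have h4 := congrFun hf'.2 ⟨j, hj⟩
            simp only at h3 h4
            rw [h3, h4]
      refine h2.trans ?_
      rw [Nat.le_div_iff_mul_le hK]
      exact hS _ _
  have h3 : (Finset.univ : Finset ({j : T // j ≠ q} → ι)).card = M ^ (Fintype.card T - 1) := by
    rw [Finset.card_univ, Fintype.card_fun]
    congr 1
    simp [Fintype.card_subtype_compl]
  have hT : 0 < Fintype.card T := Fintype.card_pos_iff.2 ⟨q⟩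
  calc (Finset.univ.filter fun f : T → ι => f q ∈ S (f p) (f r)).card * K
      ≤ ((M / K) * M ^ (Fintype.card T - 1)) * K := by
        rw [h3] at h1
        exact Nat.mul_le_mul_right K h1
    _ = ((M / K) * K) * M ^ (Fintype.card T - 1) := by ring
    _ ≤ M * M ^ (Fintype.card T - 1) := Nat.mul_le_mul_right _ (Nat.div_mul_le_self M K)
    _ = M ^ (Fintype.card T) := by
        rw [← pow_succ']
        congr 1
        omega

theorem exists_good {ι : Type*} [Fintype ι] [DecidableEq ι]
    (S1 S2 : ι → ι → Finset ι)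
    (h1 : ∀ k l, (S1 k l).card * 64 ≤ Fintype.card ι)
    (h2 : ∀ k l, (S2 k l).card * 64 ≤ Fintype.card ι)
    (hM : 64 ≤ Fintype.card ι) :
    ∃ u v : Fin 3 → ι, (∀ i j, u i ≠ v j) ∧ (∀ i i' j, i ≠ i' → u i' ∉ S1 (u i) (v j)) ∧
      (∀ i j j', j ≠ j' → v j' ∉ S2 (u i) (v j)) := by
  classical
  let T := Fin 3 ⊕ Fin 3
  let F := T → ι
  let B1 : (Fin 3 × Fin 3 × Fin 3) → Finset F := fun e =>
    if e.1 = e.2.1 then ∅ else
      Finset.univ.filter fun f : F => f (Sum.inl e.2.1) ∈ S1 (f (Sum.inl e.1)) (f (Sum.inr e.2.2))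
  let B2 : (Fin 3 × Fin 3 × Fin 3) → Finset F := fun e =>
    if e.1 = e.2.1 then ∅ else
      Finset.univ.filter fun f : F => f (Sum.inr e.2.1) ∈ S2 (f (Sum.inl e.2.2)) (f (Sum.inr e.1))
  let B3 : (Fin 3 × Fin 3) → Finset F := fun e =>
      Finset.univ.filter fun f : F => f (Sum.inr e.2) ∈
        (fun (k _l : ι) => ({k} : Finset ι)) (f (Sum.inl e.1)) (f (Sum.inl e.1))
  set M := Fintype.card ι with hMdef
  have c1 : ∀ e, (B1 e).card * 64 ≤ M ^ 6 := by
    rintro ⟨i, i', j⟩
    by_cases h : i = i'
    · simp [B1, h]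
    · have := count_event (ι := ι) (T := T) (Sum.inl i) (Sum.inr j) (Sum.inl i')
        (by intro hh; exact h (Sum.inl.inj hh).symm) (by simp) S1 64 (by norm_num) h1
      simpa [B1, h, T] using this
  have c2 : ∀ e, (B2 e).card * 64 ≤ M ^ 6 := by
    rintro ⟨j, j', i⟩
    by_cases h : j = j'
    · simp [B2, h]
    · have := count_event (ι := ι) (T := T) (Sum.inl i) (Sum.inr j) (Sum.inr j')
        (by simp) (by intro hh; exact h (Sum.inr.inj hh).symm) S2 64 (by norm_num) h2
      simpa [B2, h, T] using this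
  have c3 : ∀ e, (B3 e).card * 64 ≤ M ^ 6 := by
    rintro ⟨i, j⟩
    have := count_event (ι := ι) (T := T) (Sum.inl i) (Sum.inl i) (Sum.inr j)
        (by simp) (by simp) (fun (k _l : ι) => ({k} : Finset ι)) 64 (by norm_num)
        (by intro k l; simpa using hM)
    simpa [B3, T] using this
  let B : Finset F := (Finset.univ.biUnion B1) ∪ (Finset.univ.biUnion B2) ∪
    (Finset.univ.biUnion B3)
  have hB : B.card * 64 ≤ 63 * M ^ 6 := by
    have d1 : (Finset.univ.biUnion B1).card * 64 ≤ 27 * M ^ 6 := by
      calc (Finset.univ.biUnion B1).card * 64 ≤ (∑ e, (B1 e).card) * 64 :=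
            Nat.mul_le_mul_right _ Finset.card_biUnion_le
        _ = ∑ e, (B1 e).card * 64 := by rw [Finset.sum_mul]
        _ ≤ ∑ _e : (Fin 3 × Fin 3 × Fin 3), M ^ 6 := Finset.sum_le_sum fun e _ => c1 e
        _ = 27 * M ^ 6 := by simp
    have d2 : (Finset.univ.biUnion B2).card * 64 ≤ 27 * M ^ 6 := by
      calc (Finset.univ.biUnion B2).card * 64 ≤ (∑ e, (B2 e).card) * 64 :=
            Nat.mul_le_mul_right _ Finset.card_biUnion_le
        _ = ∑ e, (B2 e).card * 64 := by rw [Finset.sum_mul]
        _ ≤ ∑ _e : (Fin 3 × Fin 3 × Fin 3), M ^ 6 := Finset.sum_le_sum fun e _ => c2 e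
        _ = 27 * M ^ 6 := by simp
    have d3 : (Finset.univ.biUnion B3).card * 64 ≤ 9 * M ^ 6 := by
      calc (Finset.univ.biUnion B3).card * 64 ≤ (∑ e, (B3 e).card) * 64 :=
            Nat.mul_le_mul_right _ Finset.card_biUnion_le
        _ = ∑ e, (B3 e).card * 64 := by rw [Finset.sum_mul]
        _ ≤ ∑ _e : (Fin 3 × Fin 3), M ^ 6 := Finset.sum_le_sum fun e _ => c3 e
        _ = 9 * M ^ 6 := by simp
    have d4 : B.card ≤ (Finset.univ.biUnion B1).card + (Finset.univ.biUnion B2).card +
        (Finset.univ.biUnion B3).card := by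
      refine (Finset.card_union_le _ _).trans ?_
      exact Nat.add_le_add_right (Finset.card_union_le _ _) _
    calc B.card * 64 ≤ ((Finset.univ.biUnion B1).card + (Finset.univ.biUnion B2).card +
        (Finset.univ.biUnion B3).card) * 64 := Nat.mul_le_mul_right _ d4
      _ ≤ 63 * M ^ 6 := by rw [add_mul, add_mul]; omega
  have hMpos : 0 < M ^ 6 := pow_pos (by omega) 6
  have hF : Fintype.card F = M ^ 6 := by simp [F, T, Fintype.card_fun, hMdef]
  have hlt : B.card < Fintype.card F := by
    rw [hF]; by_contra hc; push Not at hc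
    have : M ^ 6 * 64 ≤ B.card * 64 := Nat.mul_le_mul_right _ hc
    omega
  obtain ⟨f, hf⟩ : ∃ f : F, f ∉ B := by
    by_contra hc
    push Not at hc
    have : B = Finset.univ := Finset.eq_univ_iff_forall.2 hc
    rw [this, Finset.card_univ] at hlt
    exact lt_irrefl _ hlt
  simp only [B, Finset.mem_union, Finset.mem_biUnion, Finset.mem_univ, true_and, not_or,
    not_exists] at hf
  obtain ⟨⟨g1, g2⟩, g3⟩ := hf
  refine ⟨fun i => f (Sum.inl i), fun j => f (Sum.inr j), ?_, ?_, ?_⟩
  · intro i j hij
    apply g3 (i, j)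
    simp [B3, hij]
  · intro i i' j hii hmem
    apply g1 (i, i', j)
    simpa [B1, hii] using hmem
  · intro i j j' hjj hmem
    apply g2 (j, j', i)
    simpa [B2, hjj] using hmem

namespace Config

variable {E : Type*} [AddCommGroup E] [Module ℝ E] {ι : Type*}

/-- Restriction of a configuration along an injection. -/
def restrict {κ : Type*} (C : Config E ι) (e : κ → ι) (he : Function.Injective e) :
    Config E κ where
  x k := C.x (e k)
  a k := C.a (e k)
  f i j := C.f (e i) (e j)
  c i j := C.c (e i) (e j)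
  hx i j h := C.hx _ _ (fun hh => h (he hh))
  ha i j h := C.ha _ _ (fun hh => h (he hh))
  lx i j h k := C.lx _ _ (fun hh => h (he hh)) (e k)
  la i j h k := C.la _ _ (fun hh => h (he hh)) (e k)
  nb i j h k := C.nb _ _ (fun hh => h (he hh)) (e k)

open Classical in
/-- The set of indices whose `x` point lies on the plane of `k,l`. -/
noncomputable def SX [Fintype ι] (C : Config E ι) (k l : ι) : Finset ι :=
  Finset.univ.filter fun m => k ≠ l ∧ C.f k l (C.x m) = C.c k l

theorem mem_SX [Fintype ι] (C : Config E ι) (k l m : ι) :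
    m ∈ C.SX k l ↔ k ≠ l ∧ C.f k l (C.x m) = C.c k l := by
  classical
  simp [SX]

theorem f_ne_zero (C : Config E ι) {k l : ι} (h : k ≠ l) : C.f k l ≠ 0 := by
  intro h0
  apply C.nb k l h k
  have := C.hx k l h
  rw [h0] at this ⊢
  exact ⟨this, by simpa using this⟩

theorem no_good [FiniteDimensional ℝ E] (hE : finrank ℝ E = 3) [Fintype ι] (C : Config E ι)
    (h1 : ∀ k l, (C.SX k l).card * 64 ≤ Fintype.card ι)
    (h2 : ∀ k l, (C.swap.SX k l).card * 64 ≤ Fintype.card ι)
    (hM : 64 ≤ Fintype.card ι) : False := by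
  classical
  obtain ⟨u, v, huv, hu, hv⟩ := exists_good C.SX (fun k l => C.swap.SX l k) h1
    (fun k l => h2 l k) hM
  refine k33 (le_of_eq hE) (fun i => C.x (u i)) (fun j => C.a (v j))
    (fun i j => C.f (u i) (v j)) (fun i j => C.c (u i) (v j)) ?_ ?_ ?_ ?_
  · intro i j; exact C.hx _ _ (huv i j)
  · intro i j; exact C.ha _ _ (huv i j)
  · intro i j i' hii
    refine lt_of_le_of_ne (C.lx _ _ (huv i j) _) ?_
    intro hh
    exact hu i i' j hii.symm ((C.mem_SX _ _ _).2 ⟨huv i j, hh⟩)
  · intro i j j' hjj
    refine lt_of_le_of_ne (C.la _ _ (huv i j) _) ?_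
    intro hh
    exact hv i j j' hjj.symm ((C.swap.mem_SX _ _ _).2 ⟨(huv i j).symm, hh⟩)

theorem stepX [FiniteDimensional ℝ E] (hE : finrank ℝ E = 3) [Fintype ι] [DecidableEq ι]
    (C : Config E ι) (K : ℕ) (hK : 0 < Fintype.card ι) :
    (∀ k l, (C.SX k l).card * K < Fintype.card ι) ∨
    ∃ J : Finset ι, Fintype.card ι ≤ J.card * K ∧
      ∀ k ∈ J, ∀ l ∈ J, (C.SX k l ∩ J).card ≤ 2 := by
  by_cases h : ∀ k l, (C.SX k l).card * K < Fintype.card ι
  · exact Or.inl h
  · right
    push Not at h
    obtain ⟨k, l, hkl⟩ := h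
    refine ⟨C.SX k l, hkl, ?_⟩
    have hne : k ≠ l := by
      intro hh
      have : C.SX k l = ∅ := by
        ext m; simp [mem_SX, hh]
      rw [this] at hkl
      simp at hkl
      exact absurd hK (by simp [hkl])
    intro k' _ l' hl'
    by_contra hc
    push Not at hc
    have h3 : 2 < (C.SX k' l' ∩ C.SX k l).card := hc
    rw [Finset.two_lt_card] at h3
    obtain ⟨p, hp, q, hq, r, hr, hpq, hpr, hqr⟩ := h3
    simp only [Finset.mem_inter, mem_SX] at hp hq hr
    have hne' : k' ≠ l' := hp.1.1
    have := C.share3 hE hpq hpr hqr (C.f k' l') (C.f k l) (C.c k' l') (C.c k l)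
      (C.f_ne_zero hne') hp.1.2 hq.1.2 hr.1.2 hp.2.2 hq.2.2 hr.2.2 (C.a l')
      (C.ha k' l' hne')
    exact C.nb k l hne l' ⟨((C.mem_SX _ _ _).1 hl').2, this⟩

theorem card_SX_restrict [Fintype ι] [DecidableEq ι] (C : Config E ι) (J : Finset ι)
    (k l : J) :
    ((C.restrict (Subtype.val : J → ι) Subtype.val_injective).SX k l).card
      ≤ (C.SX k l ∩ J).card := by
  apply Finset.card_le_card_of_injOn (Subtype.val : J → ι)
  · intro m hm
    have hm' := ((C.restrict (Subtype.val : J → ι) Subtype.val_injective).mem_SX k l m).1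
      (Finset.mem_coe.1 hm)
    simp only [Finset.coe_inter, Set.mem_inter_iff, Finset.mem_coe, mem_SX]
    exact ⟨⟨fun hh => hm'.1 (Subtype.ext hh), hm'.2⟩, m.2⟩
  · exact Subtype.val_injective.injOn

/-- A configuration in a three-dimensional space has fewer than `2^25` indices. -/
theorem card_lt [FiniteDimensional ℝ E] (hE : finrank ℝ E = 3) [Fintype ι] (C : Config E ι) :
    Fintype.card ι < 2 ^ 25 := by
  classical
  by_contra hc
  push Not at hc
  have hpos : 0 < Fintype.card ι := by omega
  rcases stepX hE C (64 * 64) hpos with hA | ⟨J, hJ, hJ2⟩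
  · rcases stepX hE C.swap 64 hpos with hB | ⟨J, hJ, hJ2⟩
    · exact no_good hE C (fun k l => by have := hA k l; omega)
        (fun k l => (hB k l).le) (by omega)
    · let C' := C.restrict (Subtype.val : J → ι) Subtype.val_injective
      refine no_good hE C' ?_ ?_ ?_
      · intro k l
        have h1 := C.card_SX_restrict J k l
        have h2 : (C.SX (k : ι) l ∩ J).card ≤ (C.SX (k : ι) l).card :=
          Finset.card_le_card Finset.inter_subset_left
        have h3 := hA k l
        have h4 : (C'.SX k l).card ≤ (C.SX (k : ι) l).card := h1.trans h2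
        rw [Fintype.card_coe]
        omega
      · intro k l
        have h1 := C.swap.card_SX_restrict J k l
        have h2 := hJ2 k k.2 l l.2
        have h3 : (C'.swap.SX k l).card ≤ 2 := by
          refine le_trans (le_of_eq ?_) (h1.trans h2)
          congr 1
        rw [Fintype.card_coe]
        omega
      · rw [Fintype.card_coe]
        omega
  · let C' := C.restrict (Subtype.val : J → ι) Subtype.val_injective
    have hcJ : Fintype.card J = J.card := Fintype.card_coe J
    have hX : ∀ k l, (C'.SX k l).card ≤ 2 := fun k l =>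
      (C.card_SX_restrict J k l).trans (hJ2 k k.2 l l.2)
    rcases stepX hE C'.swap 64 (by rw [hcJ]; omega) with hB | ⟨J', hJ', hJ2'⟩
    · exact no_good hE C' (fun k l => by have := hX k l; rw [hcJ]; omega)
        (fun k l => (hB k l).le) (by rw [hcJ]; omega)
    · let C'' := C'.restrict (Subtype.val : J' → J) Subtype.val_injective
      have hcJ' : Fintype.card J' = J'.card := Fintype.card_coe J'
      rw [hcJ] at hJ'
      refine no_good hE C'' ?_ ?_ ?_
      · intro k l
        have h1 := C'.card_SX_restrict J' k l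
        have h2 : (C'.SX (k : J) l ∩ J').card ≤ (C'.SX (k : J) l).card :=
          Finset.card_le_card Finset.inter_subset_left
        have h3 := hX k l
        have h4 : (C''.SX k l).card ≤ (C'.SX (k : J) l).card := h1.trans h2
        rw [hcJ']
        omega
      · intro k l
        have h1 := C'.swap.card_SX_restrict J' k l
        have h2 := hJ2' k k.2 l l.2
        have h3 : (C''.swap.SX k l).card ≤ 2 := by
          refine le_trans (le_of_eq ?_) (h1.trans h2)
          congr 1
        rw [hcJ']
        omega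
      · rw [hcJ']
        omega

end Config

end Pool.Agent.H782_Illum
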